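import Pool.Agent.helper15.NAG.Coll

/-!
# The limit of a family of curves when points collide, with leading forms

Variant of helper15's file `NAG/Coll`.
-/

set_option autoImplicit false

open MvPolynomial Pool.Agent.helper5.NBS Pool.Agent.helper73.Nag Pool.Agent.helper22.SC
open Pool.Agent.helper15.Coll

namespace Pool.Agent.helper7.COL

lemma specL {N : ℕ} {d h : ℕ} {m : Fin h → ℕ} (hN : 0 < N) {v : ExN N d → PtRing h}
    (hv : IsFamN m v) {h' : ℕ} (π : Fin h → Fin h') (u : Fin h → Fin 2 → ℂ)
    (q : Fin h' → Fin 2 → ℂ) (hne : ∃ k, (col π u (v k)).map (evP q) ≠ 0) :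
      ∃ F : R2, F ≠ 0 ∧ wdeg N F ≤ d ∧ ∀ k : Fin h', ∃ (g : R2) (μ : ℕ), g ≠ 0 ∧
        g.totalDegree ≤ μ ∧ μ ≤ mult (q k) F ∧ (∀ i, π i = k → g ∈ ptIdeal (u i) ^ m i) ∧
        ∀ n : Fin 2 →₀ ℕ, n.degree = μ → coeff n (trans (q k) F) = coeff n g := by
  classical
  set a : ExN N d → Polynomial ℂ := fun k => (col π u (v k)).map (evP q) with ha
  set Φ : RA := ∑ k : ExN N d, monomial k.1 (a k) with hΦ
  have hcoef : ∀ n, coeff n Φ = if hn : n ∈ ExN N d then a ⟨n, hn⟩ else 0 := by
    intro n
    rw [hΦ, coeff_sum]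
    simp only [coeff_monomial]
    split_ifs with hn
    · rw [Finset.sum_eq_single (⟨n, hn⟩ : ExN N d)]
      · simp
      · intro l _ hl
        rw [if_neg]
        intro h
        exact hl (Subtype.ext h)
      · intro h
        exact absurd (Finset.mem_univ _) h
    · apply Finset.sum_eq_zero
      intro k _
      rw [if_neg]
      intro h
      exact hn (h ▸ k.2)
  have hΦ0 : Φ ≠ 0 := by
    obtain ⟨k, hk⟩ := hne
    intro h0
    have h1 := hcoef k.1
    rw [h0, coeff_zero, dif_pos k.2] at h1
    exact hk h1.symm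
  have hsp : ∀ t, sp t Φ = polyOf (ExN N d) (fun k => evP (fun i l => q (π i) l + t * u i l) (v k)) := by
    intro t
    rw [hΦ, map_sum, polyOf]
    apply Finset.sum_congr rfl
    intro k _
    rw [sp, map_monomial, ha]
    show monomial k.1 (Polynomial.eval t _) = _
    rw [col_eval]
  obtain ⟨ν, F', hF', hF'0⟩ := extract hΦ0
  refine ⟨sp 0 F', hF'0, ?_, fun k => ?_⟩
  · rw [wdegN_le_iff hN]
    intro n hn
    by_contra hcon
    have h1 := hcoef n
    rw [dif_neg hcon, hF', coeff_C_mul] at h1
    have h2 : coeff n F' = 0 := (mul_eq_zero.mp h1).resolve_left (pow_ne_zero _ Polynomial.X_ne_zero)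
    rw [mem_support_iff, coeff_sp, h2] at hn
    simp at hn
  · set G : RA := trA (fun l => Polynomial.C (q k l)) F' with hG
    set H : RA := scA G with hH
    have hGsp : sp 0 G = trans (q k) (sp 0 F') := by
      rw [hG, sp_trA]
      simp
    have hG0 : sp 0 G ≠ 0 := by
      rw [hGsp]
      intro h
      exact hF'0 ((map_eq_zero_iff _ (trans (q k)).injective).mp h)
    have hH0 : H ≠ 0 := by
      have hGne : G ≠ 0 := fun h => hG0 (by rw [h, map_zero])
      obtain ⟨n, hn⟩ := MvPolynomial.ne_zero_iff.mp hGne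
      intro h0
      have h1 := coeff_scA G n
      rw [← hH, h0, coeff_zero] at h1
      exact hn ((mul_eq_zero.mp h1.symm).resolve_left (pow_ne_zero _ Polynomial.X_ne_zero))
    obtain ⟨μ, H', hH', hH'0⟩ := extract hH0
    have hrel : ∀ n : Fin 2 →₀ ℕ, Polynomial.X ^ μ * coeff n H' =
        Polynomial.X ^ n.degree * coeff n G := by
      intro n
      rw [← coeff_scA, ← hH, hH', coeff_C_mul]
    refine ⟨sp 0 H', μ, hH'0, ?_, ?_, ?_, ?_⟩
    · · rw [MvPolynomial.totalDegree]
        apply Finset.sup_le
        intro n hn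
        rw [mem_support_iff, coeff_sp] at hn
        by_contra hcon
        rw [not_le] at hcon
        have hdeg : (n.sum fun _ e => e) = n.degree := rfl
        rw [hdeg] at hcon
        apply hn
        have h1 := hrel n
        obtain ⟨e, he⟩ : ∃ e, n.degree = μ + (e + 1) := ⟨n.degree - μ - 1, by omega⟩
        rw [he, pow_add, mul_assoc] at h1
        have h2 := mul_left_cancel₀ (pow_ne_zero _ Polynomial.X_ne_zero) h1
        rw [h2, Polynomial.eval_mul]
        simp
    · · rw [← mem_pow_iff_le_mult hF'0, mem_ptIdeal_pow]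
        intro n hn
        rw [← hGsp, coeff_sp]
        have h1 := hrel n
        obtain ⟨e, he⟩ : ∃ e, μ = n.degree + (e + 1) := ⟨μ - n.degree - 1, by omega⟩
        rw [he, pow_add, mul_assoc] at h1
        have h2 := mul_left_cancel₀ (pow_ne_zero _ Polynomial.X_ne_zero) h1
        rw [← h2, Polynomial.eval_mul]
        simp
    · intro i hi
      rw [mem_ptIdeal_pow]
      intro n hn
      have h1 : coeff n (trA (fun l => Polynomial.C (u i l)) H') = 0 := by
        have h2 : coeff n (trA (fun l => Polynomial.C (u i l)) H) = 0 := by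
          rw [hH, hG, trA_scA, coeff_scA]
          have h3 : coeff n (trA (fun l => Polynomial.C (q k l) + Polynomial.X * Polynomial.C (u i l)) Φ) = 0 := by
            apply Polynomial.funext
            intro t
            rw [← coeff_sp, sp_trA, hsp, Polynomial.eval_zero]
            have h4 := (hv.lin hN (fun i l => q (π i) l + t * u i l)).2 i
            rw [mem_ptIdeal_pow] at h4
            have h5 := h4 n hn
            have h6 : (fun l => Polynomial.eval t (Polynomial.C (q k l) +
                Polynomial.X * Polynomial.C (u i l))) = fun l => q (π i) l + t * u i l := by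
              funext l
              simp [hi]
              ring
            rw [h6]
            exact h5
          rw [hF', map_mul] at h3
          have h4 : trA (fun l => Polynomial.C (q k l) + Polynomial.X * Polynomial.C (u i l))
              (C (Polynomial.X ^ ν)) = C (Polynomial.X ^ ν) := by
            rw [trA, aeval_C, MvPolynomial.algebraMap_eq]
          rw [h4, coeff_C_mul] at h3
          rw [(mul_eq_zero.mp h3).resolve_left (pow_ne_zero _ Polynomial.X_ne_zero), mul_zero]
        rw [hH', map_mul] at h2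
        have h4 : trA (fun l => Polynomial.C (u i l))
              (C (Polynomial.X ^ μ)) = C (Polynomial.X ^ μ) := by
            rw [trA, aeval_C, MvPolynomial.algebraMap_eq]
        rw [h4, coeff_C_mul] at h2
        exact (mul_eq_zero.mp h2).resolve_left (pow_ne_zero _ Polynomial.X_ne_zero)
      have h2 := sp_trA 0 (fun l => Polynomial.C (u i l)) H'
      simp only [Polynomial.eval_C] at h2
      rw [← h2, coeff_sp, h1, Polynomial.eval_zero]
    · intro n hn
      rw [← hGsp, coeff_sp, coeff_sp]
      have h1 := hrel n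
      rw [hn] at h1
      rw [mul_left_cancel₀ (pow_ne_zero _ Polynomial.X_ne_zero) h1]

/-- The limit of a family of curves when points collide. -/
theorem collide_lead {N : ℕ} (hN : 0 < N) {d h h' : ℕ} {m : Fin h → ℕ} {v : ExN N d → PtRing h}
    (hv : IsFamN m v) (π : Fin h → Fin h') (u : Fin h → Fin 2 → ℂ)
    (hu : ∃ k, evP u (v k) ≠ 0) :
    ∃ Q : PtRing h', Q ≠ 0 ∧ ∀ q : Fin h' → Fin 2 → ℂ, evP q Q ≠ 0 →
      ∃ F : R2, F ≠ 0 ∧ wdeg N F ≤ d ∧ ∀ k : Fin h', ∃ (g : R2) (μ : ℕ), g ≠ 0 ∧
        g.totalDegree ≤ μ ∧ μ ≤ mult (q k) F ∧ (∀ i, π i = k → g ∈ ptIdeal (u i) ^ m i) ∧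
        ∀ n : Fin 2 →₀ ℕ, n.degree = μ → coeff n (trans (q k) F) = coeff n g := by
  obtain ⟨k, hk⟩ := hu
  have h0 : col π u (v k) ≠ 0 := by
    intro h1
    apply hk
    have h2 := col_eval π u (fun _ _ => 0) 1 (v k)
    rw [h1] at h2
    simp only [Polynomial.map_zero, Polynomial.eval_zero, zero_add, one_mul] at h2
    exact h2.symm
  refine ⟨(col π u (v k)).leadingCoeff, Polynomial.leadingCoeff_ne_zero.mpr h0, fun q hq => ?_⟩
  apply specL hN hv π u q ⟨k, ?_⟩
  intro h1
  apply hq
  have h2 := congrArg (fun w : Polynomial ℂ => w.coeff (col π u (v k)).natDegree) h1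
  simp only [Polynomial.coeff_map, Polynomial.coeff_zero] at h2
  exact h2

end Pool.Agent.helper7.COL
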